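import Mathlib
import Pool.Agent.N251.GA.Leaves2

/-!
# GA2/SYMG (helper787, project GA2 of helper251): the abc inequality for conjugate triples of Gaussian
integers is equivalent to the classical abc conjecture
-/

set_option autoImplicit false

namespace Pool.Agent.N787.GA.SymG

open Pool.Agent.N251.GA

/-- the arithmetic data of `ℤ` -/
noncomputable def arZ (h : LeafZ) : Ar ℤ where
  ι := Unit
  fin := inferInstance
  ne := inferInstance
  σ _ := Int.castRingHom ℂ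
  rad := radZ
  one_le_norm x hx := by
    rw [Finset.univ_unique, Finset.prod_singleton]
    exact h.1 x hx
  one_le_rad := h.2.1
  rad_le_norm x hx := by
    rw [Finset.univ_unique, Finset.prod_singleton]
    exact h.2.2.1 x hx
  rad_mul_le := h.2.2.2.1
  rad_mono := h.2.2.2.2.1
  idem := h.2.2.2.2.2

theorem prodZ (h : LeafZ) (f : (arZ h).ι → ℝ) : ∏ i, f i = f () :=
  Fintype.prod_unique (ι := Unit) f

theorem radZ_neg (n : ℤ) : radZ (-n) = radZ n := by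
  unfold radZ
  rw [Int.natAbs_neg]

/-- the abc conjecture in the language of `Ar` -/
theorem abc_iff (h : LeafZ) : (ABC (arZ h) fun _ => True) ↔ AbcZ := by
  constructor
  · intro hA ε hε
    obtain ⟨κ, hκ, H⟩ := hA ε hε
    refine ⟨κ, hκ, fun a b c hab hs h0 => ?_⟩
    have h1 := H (a, b, -c) ⟨⟨hab, by simp only; omega, left_ne_zero_of_mul (left_ne_zero_of_mul h0),
      right_ne_zero_of_mul (left_ne_zero_of_mul h0), neg_ne_zero.2 (right_ne_zero_of_mul h0)⟩,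
      trivial⟩
    rw [prodZ] at h1
    have e1 : ht (arZ h) (a, b, -c) () = max (max |(a : ℝ)| |(b : ℝ)|) |(c : ℝ)| := by
      show max (max ‖((a : ℤ) : ℂ)‖ ‖((b : ℤ) : ℂ)‖) ‖((-c : ℤ) : ℂ)‖ = _
      rw [Int.cast_neg, norm_neg, Complex.norm_intCast, Complex.norm_intCast, Complex.norm_intCast]
    have e2 : (arZ h).rad (a * b * -c) = radZ (a * b * c) := by
      show radZ (a * b * -c) = _
      rw [mul_neg, radZ_neg]
    rw [e1] at h1
    refine h1.trans (le_of_eq e2)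
  · intro hA ε hε
    obtain ⟨κ, hκ, H⟩ := hA ε hε
    refine ⟨κ, hκ, ?_⟩
    rintro ⟨a, b, c⟩ ⟨⟨hab, hs, ha, hb, hc⟩, -⟩
    simp only at hab hs ha hb hc
    have h1 := H a b (-c) hab (by omega) (mul_ne_zero (mul_ne_zero ha hb) (neg_ne_zero.2 hc))
    rw [prodZ]
    have e1 : ht (arZ h) (a, b, c) () = max (max |(a : ℝ)| |(b : ℝ)|) |((-c : ℤ) : ℝ)| := by
      show max (max ‖((a : ℤ) : ℂ)‖ ‖((b : ℤ) : ℂ)‖) ‖((c : ℤ) : ℂ)‖ = _
      rw [Int.cast_neg, abs_neg, Complex.norm_intCast, Complex.norm_intCast, Complex.norm_intCast]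
    have e2 : (arZ h).rad (a * b * c) = radZ (a * b * -c) := by
      show radZ (a * b * c) = _
      rw [mul_neg, radZ_neg]
    rw [e1]
    exact h1.trans (le_of_eq e2.symm)

theorem star_add (s t : ℤ) : (⟨t, s⟩ : GaussianInt) + star ⟨t, s⟩ = ((2 * t : ℤ) : GaussianInt) := by
  apply Zsqrtd.ext <;> simp <;> ring

theorem star_mul (s t : ℤ) :
    (⟨t, s⟩ : GaussianInt) * star ⟨t, s⟩ = ((s ^ 2 + t ^ 2 : ℤ) : GaussianInt) := by
  have e : ((s ^ 2 + t ^ 2 : ℤ) : GaussianInt) = ⟨s ^ 2 + t ^ 2, 0⟩ := rfl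
  rw [e]
  apply Zsqrtd.ext
  · simp
    ring
  · simp
    ring

theorem star_prod (s t : ℤ) : (⟨t, s⟩ : GaussianInt) * star ⟨t, s⟩ * (⟨t, s⟩ + star ⟨t, s⟩) =
    (((s ^ 2 + t ^ 2) * (2 * t) : ℤ) : GaussianInt) := by
  rw [star_add, star_mul]
  push_cast
  ring

/-- the size of the triple -/
noncomputable def H (s t : ℤ) : ℝ := max (max ‖GaussianInt.toComplex ⟨t, s⟩‖
  ‖GaussianInt.toComplex (star (⟨t, s⟩ : GaussianInt))‖)
      ‖GaussianInt.toComplex ((⟨t, s⟩ : GaussianInt) + star ⟨t, s⟩)‖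

theorem nrm (s t : ℤ) : ‖GaussianInt.toComplex ⟨t, s⟩‖ = √((s : ℝ) ^ 2 + (t : ℝ) ^ 2) := by
  rw [GaussianInt.toComplex_def₂, Complex.norm_def, Complex.normSq_apply]
  congr 1
  simp only
  ring

theorem M_le_H (s t : ℤ) : max |(s : ℝ)| |(t : ℝ)| ≤ H s t := by
  unfold H
  refine le_trans ?_ ((le_max_left _ _).trans (le_max_left _ _))
  rw [nrm]
  refine max_le ?_ ?_
  · exact Real.abs_le_sqrt (by nlinarith [sq_nonneg (t : ℝ)])
  · exact Real.abs_le_sqrt (by nlinarith [sq_nonneg (s : ℝ)])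

theorem H_le_M (s t : ℤ) : H s t ≤ 2 * max |(s : ℝ)| |(t : ℝ)| := by
  have hs := le_max_left |(s : ℝ)| |(t : ℝ)|
  have ht := le_max_right |(s : ℝ)| |(t : ℝ)|
  have hs0 := abs_nonneg (s : ℝ)
  have ht0 := abs_nonneg (t : ℝ)
  have h1 : √((s : ℝ) ^ 2 + (t : ℝ) ^ 2) ≤ 2 * max |(s : ℝ)| |(t : ℝ)| := by
    rw [Real.sqrt_le_left (by positivity)]
    rw [← sq_abs (s : ℝ), ← sq_abs (t : ℝ)]
    nlinarith
  have e : star (⟨t, s⟩ : GaussianInt) = ⟨t, -s⟩ := rfl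
  unfold H
  refine max_le (max_le ?_ ?_) ?_
  · rw [nrm]
    exact h1
  · rw [e, nrm, Int.cast_neg, neg_sq]
    exact h1
  · rw [star_add, map_intCast, Complex.norm_intCast]
    push_cast
    rw [abs_mul, abs_two]
    linarith

theorem cop_of (s t : ℤ) (h : IsCoprime s t) (h2 : (2 : ℤ) ∣ t) :
    IsCoprime (⟨t, s⟩ : GaussianInt) (star ⟨t, s⟩) := by
  apply isCoprime_of_max
  intro P hP h1 h3
  obtain ⟨u, v, huv⟩ := h
  obtain ⟨t', ht'⟩ := h2
  have hsodd : Odd s := by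
    rcases Int.even_or_odd s with h4 | h4
    · exfalso
      obtain ⟨r, hr⟩ := h4
      rw [hr, ht'] at huv
      have : 2 * (u * r + v * t') = 1 := by linarith
      omega
    · exact h4
  obtain ⟨r, hr⟩ := hsodd
  have e1 : ((2 * t : ℤ) : GaussianInt) ∈ P := by
    rw [← star_add s t]
    exact P.add_mem h1 h3
  have e2 : ((2 * s : ℤ) : GaussianInt) ∈ P := by
    have e : ((2 * s : ℤ) : GaussianInt) = (⟨0, -1⟩ : GaussianInt) * (⟨t, s⟩ - star ⟨t, s⟩) := by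
      apply Zsqrtd.ext <;> simp <;> ring
    rw [e]
    exact P.mul_mem_left _ (P.sub_mem h1 h3)
  have e3 : (2 : GaussianInt) ∈ P := by
    have e : (2 : GaussianInt) = (u : GaussianInt) * ((2 * s : ℤ) : GaussianInt) +
        (v : GaussianInt) * ((2 * t : ℤ) : GaussianInt) := by
      have := congrArg (Int.cast : ℤ → GaussianInt) huv
      push_cast at this ⊢
      linear_combination (-2) * this
    rw [e]
    exact P.add_mem (P.mul_mem_left _ e2) (P.mul_mem_left _ e1)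
  have e4 : ((s ^ 2 + t ^ 2 : ℤ) : GaussianInt) ∈ P := by
    rw [← star_mul s t]
    exact P.mul_mem_right _ h1
  have e5 : (1 : GaussianInt) ∈ P := by
    have e : (1 : GaussianInt) = ((s ^ 2 + t ^ 2 : ℤ) : GaussianInt) -
        ((2 * (r ^ 2 + r + t' ^ 2) : ℤ) : GaussianInt) * 2 := by
      rw [hr, ht']
      push_cast
      ring
    rw [e]
    exact P.sub_mem e4 (P.mul_mem_left _ e3)
  exact hP.ne_top ((Ideal.eq_top_iff_one P).2 e5)

theorem of_cop (s t : ℤ) (h : IsCoprime (⟨t, s⟩ : GaussianInt) (star ⟨t, s⟩)) :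
    IsCoprime s t := by
  have h1 : ((Int.gcd s t : ℤ) : GaussianInt) ∣ ⟨t, s⟩ := by
    obtain ⟨x, hx⟩ := Int.gcd_dvd_left (a := s) (b := t)
    obtain ⟨y, hy⟩ := Int.gcd_dvd_right (a := s) (b := t)
    refine ⟨⟨y, x⟩, ?_⟩
    apply Zsqrtd.ext
    · simpa using hy
    · simpa using hx
  have h2 : ((Int.gcd s t : ℤ) : GaussianInt) ∣ star ⟨t, s⟩ := by
    obtain ⟨x, hx⟩ := Int.gcd_dvd_left (a := s) (b := t)
    obtain ⟨y, hy⟩ := Int.gcd_dvd_right (a := s) (b := t)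
    refine ⟨⟨y, -x⟩, ?_⟩
    apply Zsqrtd.ext
    · simpa using hy
    · have : -s = (Int.gcd s t : ℤ) * -x := by rw [mul_neg, ← hx]
      simpa using this
  have h3 : IsUnit ((Int.gcd s t : ℤ) : GaussianInt) := h.isUnit_of_dvd' h1 h2
  rw [Zsqrtd.isUnit_iff_norm_isUnit, Zsqrtd.norm_intCast] at h3
  have h4 := isUnit_of_mul_isUnit_left h3
  rw [Int.isCoprime_iff_gcd_eq_one]
  rcases Int.isUnit_iff.1 h4 with h5 | h5
  · exact_mod_cast h5
  · omega

theorem t : LeafSymG := by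
  intro hZ h4 hF hR N hN
  constructor
  · intro hS
    rw [← abc_iff hZ]
    refine h4 ℤ (arZ hZ) (2 * N) (by omega) fun ε hε => ?_
    obtain ⟨κ, hκ, hK⟩ := hS ε hε
    refine ⟨min κ 1, lt_min hκ one_pos, ?_⟩
    rintro ⟨s, t⟩ ⟨hst, -, ht0, hne, hdv⟩
    simp only at hst ht0 hne hdv
    rw [prodZ]
    show min κ 1 * (max ‖((s : ℤ) : ℂ)‖ ‖((t : ℤ) : ℂ)‖) ^ (1 - ε) ≤
      radZ (t * (s ^ 2 - ((-1 : ℤ) : ℤ) * t ^ 2))
    rw [Complex.norm_intCast, Complex.norm_intCast]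
    have hx : t * (s ^ 2 - ((-1 : ℤ) : ℤ) * t ^ 2) = t * (s ^ 2 + t ^ 2) := by
      ring
    rw [hx]
    obtain ⟨w, hw⟩ := hdv
    push_cast at hw
    have hM1 : 1 ≤ max |(s : ℝ)| |(t : ℝ)| := by
      refine le_trans ?_ (le_max_right _ _)
      have : 1 ≤ |t| := Int.one_le_abs ht0
      exact_mod_cast this
    have hr1 : 1 ≤ radZ (t * (s ^ 2 + t ^ 2)) := hZ.2.1 _
    rcases le_or_gt ε 1 with he | he
    · have h1 := hK ⟨t, s⟩ (cop_of s t hst ⟨N * w, by rw [hw]; ring⟩) (by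
        rw [star_add]
        intro h0
        have : (2 * t : ℤ) = 0 := by exact_mod_cast h0
        omega) ⟨((4 * w : ℤ) : GaussianInt), by
          rw [star_add, hw]
          push_cast
          ring⟩
      rw [star_prod] at h1
      have hpos : s ^ 2 + t ^ 2 ≠ 0 := by positivity
      have h2 := (hR ((s ^ 2 + t ^ 2) * (2 * t)) (mul_ne_zero hpos (by omega))).1
      have h3 : radZ ((s ^ 2 + t ^ 2) * (2 * t)) ≤ radZ (t * (s ^ 2 + t ^ 2)) := by
        refine hZ.2.2.2.2.1 _ _ 2 (mul_ne_zero ht0 hpos) ⟨(N * w) * (s ^ 2 + t ^ 2), ?_⟩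
        rw [hw]
        ring
      calc min κ 1 * (max |(s : ℝ)| |(t : ℝ)|) ^ (1 - ε) ≤ κ * (H s t) ^ (1 - ε) :=
            mul_le_mul (min_le_left _ _) (Real.rpow_le_rpow (by positivity) (M_le_H s t)
              (by linarith)) (by positivity) hκ.le
        _ ≤ radG (((s ^ 2 + t ^ 2) * (2 * t) : ℤ) : GaussianInt) := h1
        _ ≤ _ := h2.trans h3
    · calc min κ 1 * (max |(s : ℝ)| |(t : ℝ)|) ^ (1 - ε) ≤ 1 * 1 :=
            mul_le_mul (min_le_right _ _) (Real.rpow_le_one_of_one_le_of_nonpos hM1 (by linarith))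
              (by positivity) zero_le_one
        _ ≤ _ := by rw [one_mul]; exact hr1
  · intro hA ε hε
    obtain ⟨κ, hκ, hK⟩ := hF ℤ (arZ hZ) (-1) 1 (by norm_num) ((abc_iff hZ).2 hA) (min ε (1 / 2))
      (lt_min hε (by norm_num))
    refine ⟨κ / 4, by positivity, ?_⟩
    rintro ⟨t, s⟩ hcop hne -
    have hst := of_cop s t hcop
    rw [star_add] at hne
    have ht0 : t ≠ 0 := by
      rintro rfl
      exact hne (by simp)
    have hpos : s ^ 2 + t ^ 2 ≠ 0 := by positivity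
    have h1 := hK (s, t) ⟨hst, ⟨0, -1, by simp⟩, ht0, by
      simp only [Int.cast_id]
      intro h0
      apply hpos
      rw [h0]
      ring, ⟨t, by simp⟩⟩
    rw [prodZ] at h1
    have h2 : κ * (max |(s : ℝ)| |(t : ℝ)|) ^ (1 - min ε (1 / 2)) ≤ radZ (t * (s ^ 2 + t ^ 2)) := by
      have h3 : κ * (max ‖((s : ℤ) : ℂ)‖ ‖((t : ℤ) : ℂ)‖) ^ (1 - min ε (1 / 2)) ≤
        radZ (t * (s ^ 2 - ((-1 : ℤ) : ℤ) * t ^ 2)) := h1
      rw [Complex.norm_intCast, Complex.norm_intCast] at h3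
      have hx : t * (s ^ 2 - ((-1 : ℤ) : ℤ) * t ^ 2) = t * (s ^ 2 + t ^ 2) := by
        ring
      rwa [hx] at h3
    have hM1 : 1 ≤ max |(s : ℝ)| |(t : ℝ)| := by
      refine le_trans ?_ (le_max_right _ _)
      have : 1 ≤ |t| := Int.one_le_abs ht0
      exact_mod_cast this
    have hH1 : 1 ≤ H s t := hM1.trans (M_le_H s t)
    have he2 : min ε (1 / 2) ≤ 1 / 2 := min_le_right _ _
    have he1 : min ε (1 / 2) ≤ ε := min_le_left _ _
    have he0 : 0 < min ε (1 / 2) := lt_min hε (by norm_num)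
    obtain ⟨M, hM⟩ : ∃ M : ℝ, M = max |(s : ℝ)| |(t : ℝ)| := ⟨_, rfl⟩
    rw [← hM] at h2 hM1
    have h5 : H s t ^ (1 - ε) ≤ 2 * M ^ (1 - min ε (1 / 2)) := by
      calc H s t ^ (1 - ε) ≤ H s t ^ (1 - min ε (1 / 2)) :=
            Real.rpow_le_rpow_of_exponent_le hH1 (by linarith)
        _ ≤ (2 * M) ^ (1 - min ε (1 / 2)) :=
            Real.rpow_le_rpow (by linarith) (by rw [hM]; exact H_le_M s t) (by linarith)
        _ = 2 ^ (1 - min ε (1 / 2)) * M ^ (1 - min ε (1 / 2)) :=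
            Real.mul_rpow (by norm_num) (by linarith)
        _ ≤ 2 * M ^ (1 - min ε (1 / 2)) := by
            refine mul_le_mul_of_nonneg_right ?_ (by positivity)
            calc (2 : ℝ) ^ (1 - min ε (1 / 2)) ≤ 2 ^ (1 : ℝ) :=
                  Real.rpow_le_rpow_of_exponent_le (by norm_num) (by linarith)
              _ = 2 := Real.rpow_one 2
    have h6 := (hR ((s ^ 2 + t ^ 2) * (2 * t)) (mul_ne_zero hpos (by omega))).2
    have h7 : radZ (t * (s ^ 2 + t ^ 2)) ≤ radZ ((s ^ 2 + t ^ 2) * (2 * t)) :=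
      hZ.2.2.2.2.1 _ _ 1 (mul_ne_zero hpos (by omega)) ⟨2, by ring⟩
    rw [star_prod]
    show κ / 4 * H s t ^ (1 - ε) ≤ _
    have h8 : κ / 4 * H s t ^ (1 - ε) ≤ κ / 4 * (2 * M ^ (1 - min ε (1 / 2))) :=
      mul_le_mul_of_nonneg_left h5 (by positivity)
    linarith

end Pool.Agent.N787.GA.SymG
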